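import Pool.Agent.H41.HYP.S4

/-!
# HYP: CX4 (congruence of symmetric matrices over a finite field)
-/

set_option autoImplicit false

namespace Pool.HYP.CX4

open Polynomial Matrix

variable {k : Type} [Field k]

theorem rep2 [Finite k] (h2 : (2 : k) ≠ 0) {q t : k} (c : k) (hq : q ≠ 0) (ht : t ≠ 0) :
    ∃ a b : k, q * a ^ 2 + t * b ^ 2 = c := by
  have := Fintype.ofFinite k
  have hc : Fintype.card k % 2 = 1 := by
    have hr : ringChar k ≠ 2 := by
      intro h
      apply h2
      have := ringChar.Nat.cast_ringChar (R := k)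
      rw [h] at this
      exact_mod_cast this
    have := FiniteField.odd_card_of_char_ne_two hr
    exact this
  obtain ⟨a, b, hab⟩ := FiniteField.exists_root_sum_quadratic
    (f := Polynomial.C q * Polynomial.X ^ 2 - Polynomial.C c)
    (g := Polynomial.C t * Polynomial.X ^ 2) (by
      have : Polynomial.C q * Polynomial.X ^ 2 - Polynomial.C c =
        Polynomial.C q * Polynomial.X ^ 2 + Polynomial.C 0 * Polynomial.X + Polynomial.C (-c) := by
        simp [sub_eq_add_neg]
      rw [this]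
      exact Polynomial.degree_quadratic hq) (by
      have : Polynomial.C t * Polynomial.X ^ 2 =
        Polynomial.C t * Polynomial.X ^ 2 + Polynomial.C 0 * Polynomial.X + Polynomial.C 0 := by
        simp
      rw [this]
      exact Polynomial.degree_quadratic ht) hc
  refine ⟨a, b, ?_⟩
  simp at hab
  linear_combination hab

/-- Diagonalisation. -/
theorem exists_diag (h2 : (2 : k) ≠ 0) {n : ℕ} (G : Matrix (Fin n) (Fin n) k) (hG : Gᵀ = G)
    (hd : G.det ≠ 0) :
    ∃ (a : Matrix (Fin n) (Fin n) k) (w : Fin n → k), a.det ≠ 0 ∧ aᵀ * G * a = diagonal w ∧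
      ∀ i, w i ≠ 0 := by
  have : Invertible (2 : k) := invertibleOfNonzero h2
  have hB : LinearMap.IsSymm (Matrix.toBilin' G) := by
    refine ⟨fun x y => ?_⟩
    rw [RingHom.id_apply, Matrix.toBilin'_apply', Matrix.toBilin'_apply',
      Matrix.dotProduct_mulVec, dotProduct_comm, ← Matrix.mulVec_transpose, hG]
  obtain ⟨v₀, hv₀⟩ := LinearMap.BilinForm.exists_orthogonal_basis hB
  obtain ⟨v, hv⟩ : ∃ v : Module.Basis (Fin n) k (Fin n → k), ∀ i j, i ≠ j →
      v i ⬝ᵥ (G *ᵥ v j) = 0 := by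
    refine ⟨v₀.reindex (finCongr (by simp)), fun i j hij => ?_⟩
    have h := hv₀ (i := (finCongr (by simp : Module.finrank k (Fin n → k) = n)).symm i)
      (j := (finCongr (by simp : Module.finrank k (Fin n → k) = n)).symm j)
      (fun h => hij (by simpa using h))
    rw [Module.Basis.reindex_apply, Module.Basis.reindex_apply]
    simpa [Matrix.toBilin'_apply', Function.onFun] using h
  obtain ⟨a, ha⟩ : ∃ a : Matrix (Fin n) (Fin n) k, a = Matrix.of fun i j => v j i := ⟨_, rfl⟩
  have hadet : a.det ≠ 0 := by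
    have h1 : a = (Pi.basisFun k (Fin n)).toMatrix v := by
      ext i j
      rw [ha, Matrix.of_apply, Module.Basis.toMatrix_apply, Pi.basisFun_repr]
    have h3 : IsUnit a := by
      rw [h1]
      have := (Pi.basisFun k (Fin n)).invertibleToMatrix v
      exact isUnit_of_invertible _
    rw [Matrix.isUnit_iff_isUnit_det] at h3
    exact h3.ne_zero
  have he : ∀ i j, (aᵀ * G * a) i j = v i ⬝ᵥ (G *ᵥ v j) := by
    intro i j
    rw [Matrix.mul_assoc, Matrix.mul_apply]
    simp only [Matrix.transpose_apply, ha, Matrix.of_apply, dotProduct, Matrix.mulVec,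
      Matrix.mul_apply]
  refine ⟨a, fun i => (aᵀ * G * a) i i, hadet, ?_, ?_⟩
  · ext i j
    by_cases hij : i = j
    · subst hij
      rw [Matrix.diagonal_apply_eq]
    · rw [Matrix.diagonal_apply_ne _ hij, he, hv i j hij]
  · have e : aᵀ * G * a = diagonal fun i => (aᵀ * G * a) i i := by
      ext i j
      by_cases hij : i = j
      · subst hij
        rw [Matrix.diagonal_apply_eq]
      · rw [Matrix.diagonal_apply_ne _ hij, he, hv i j hij]
    have h4 : (aᵀ * G * a).det ≠ 0 := by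
      rw [Matrix.det_mul, Matrix.det_mul, Matrix.det_transpose]
      exact mul_ne_zero (mul_ne_zero hadet hd) hadet
    rw [e, Matrix.det_diagonal] at h4
    intro i
    exact (Finset.prod_ne_zero_iff.1 h4) i (Finset.mem_univ i)

/-- Adding an orthogonal summand. -/
theorem lift_one {m : ℕ} (c : k) (w w' : Fin m → k)
    (a : Matrix (Fin m) (Fin m) k) (ha : aᵀ * diagonal w * a = diagonal w') :
    ∃ b : Matrix (Fin (m + 1)) (Fin (m + 1)) k,
      bᵀ * diagonal (Fin.cons c w : Fin (m + 1) → k) * b = diagonal (Fin.cons c w') := by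
  obtain ⟨b, hb⟩ : ∃ b : Matrix (Fin (m + 1)) (Fin (m + 1)) k,
    b = Matrix.of (Fin.cons (Fin.cons 1 0) fun i => Fin.cons 0 (a i)) := ⟨_, rfl⟩
  have b00 : b 0 0 = 1 := by rw [hb]; rfl
  have b0 : ∀ j : Fin m, b 0 j.succ = 0 := fun j => by rw [hb]; rfl
  have b1 : ∀ j : Fin m, b j.succ 0 = 0 := fun j => by rw [hb]; rfl
  have b2 : ∀ i j : Fin m, b i.succ j.succ = a i j := fun i j => by rw [hb]; rfl
  have hw : ∀ i j, ∑ l, a l i * w l * a l j = (diagonal w') i j := by
    intro i j
    rw [← ha, Matrix.mul_apply]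
    exact Finset.sum_congr rfl fun l _ => by rw [Matrix.mul_diagonal, Matrix.transpose_apply]
  refine ⟨b, ?_⟩
  ext i j
  rw [Matrix.mul_apply]
  have e : ∀ l, (bᵀ * diagonal (Fin.cons c w : Fin (m + 1) → k)) i l * b l j =
      b l i * (Fin.cons c w : Fin (m + 1) → k) l * b l j := fun l => by
    rw [Matrix.mul_diagonal, Matrix.transpose_apply]
  rw [Finset.sum_congr rfl fun l _ => e l, Fin.sum_univ_succ]
  refine Fin.cases ?_ (fun i => ?_) i <;> refine Fin.cases ?_ (fun j => ?_) j
  · simp [b00, b1]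
  · rw [Matrix.diagonal_apply_ne _ (Fin.succ_ne_zero j).symm]
    simp [b00, b0, b1]
  · simp [b00, b0, b1]
  · simp only [b0, b2, Fin.cons_succ, zero_mul, mul_zero, zero_add]
    rw [hw i j]
    by_cases hij : i = j
    · subst hij
      rw [Matrix.diagonal_apply_eq, Matrix.diagonal_apply_eq, Fin.cons_succ]
    · rw [Matrix.diagonal_apply_ne _ hij, Matrix.diagonal_apply_ne _ (by simpa using hij)]

/-- The first two entries. -/
theorem two_step {m : ℕ} (x y w0 w1 c : k) (w : Fin m → k) (h : w0 * x ^ 2 + w1 * y ^ 2 = c) :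
    ∃ b : Matrix (Fin (m + 2)) (Fin (m + 2)) k,
      bᵀ * diagonal (Fin.cons w0 (Fin.cons w1 w : Fin (m + 1) → k) : Fin (m + 2) → k) * b =
        diagonal (Fin.cons c (Fin.cons (w0 * w1 * c) w : Fin (m + 1) → k)) := by
  obtain ⟨b, hb⟩ : ∃ b : Matrix (Fin (m + 2)) (Fin (m + 2)) k,
    b = Matrix.of (Fin.cons (Fin.cons x (Fin.cons (-(w1 * y)) 0 : Fin (m + 1) → k))
      (Fin.cons (Fin.cons y (Fin.cons (w0 * x) 0 : Fin (m + 1) → k))
        fun i => Fin.cons 0 (Fin.cons 0 ((1 : Matrix (Fin m) (Fin m) k) i) : Fin (m + 1) → k)) :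
          Fin (m + 2) → Fin (m + 2) → k) := ⟨_, rfl⟩
  have b00 : b 0 0 = x := by rw [hb]; rfl
  have b01 : b 0 (Fin.succ 0) = -(w1 * y) := by rw [hb]; rfl
  have b10 : b (Fin.succ 0) 0 = y := by rw [hb]; rfl
  have b11 : b (Fin.succ 0) (Fin.succ 0) = w0 * x := by rw [hb]; rfl
  have b0 : ∀ j : Fin m, b 0 j.succ.succ = 0 := fun j => by rw [hb]; rfl
  have b1 : ∀ j : Fin m, b (Fin.succ 0) j.succ.succ = 0 := fun j => by rw [hb]; rfl
  have b0' : ∀ j : Fin m, b j.succ.succ 0 = 0 := fun j => by rw [hb]; rfl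
  have b1' : ∀ j : Fin m, b j.succ.succ (Fin.succ 0) = 0 := fun j => by rw [hb]; rfl
  have b2 : ∀ i j : Fin m, b i.succ.succ j.succ.succ = (1 : Matrix (Fin m) (Fin m) k) i j :=
    fun i j => by rw [hb]; rfl
  refine ⟨b, ?_⟩
  ext i j
  rw [Matrix.mul_apply]
  have e : ∀ l, (bᵀ * diagonal (Fin.cons w0 (Fin.cons w1 w : Fin (m + 1) → k) :
      Fin (m + 2) → k)) i l * b l j =
      b l i * (Fin.cons w0 (Fin.cons w1 w : Fin (m + 1) → k) : Fin (m + 2) → k) l * b l j :=
    fun l => by rw [Matrix.mul_diagonal, Matrix.transpose_apply]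
  rw [Finset.sum_congr rfl fun l _ => e l, Fin.sum_univ_succ, Fin.sum_univ_succ]
  simp only [Fin.cons_zero, Fin.cons_succ]
  refine Fin.cases ?_ (fun i => ?_) i <;> refine Fin.cases ?_ (fun j => ?_) j
  · simp only [b00, b10, b0', zero_mul, mul_zero, Finset.sum_const_zero, add_zero,
      Matrix.diagonal_apply_eq, Fin.cons_zero]
    linear_combination h
  · rw [Matrix.diagonal_apply_ne _ (Fin.succ_ne_zero j).symm]
    refine Fin.cases ?_ (fun j => ?_) j
    · simp only [b00, b10, b01, b11, b0', zero_mul, mul_zero, Finset.sum_const_zero, add_zero]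
      ring
    · simp only [b0, b1, b0', zero_mul, mul_zero, Finset.sum_const_zero, add_zero]
  · rw [Matrix.diagonal_apply_ne _ (Fin.succ_ne_zero i)]
    refine Fin.cases ?_ (fun i => ?_) i
    · simp only [b00, b10, b01, b11, b0', b1', zero_mul, mul_zero, Finset.sum_const_zero, add_zero]
      ring
    · simp only [b0, b1, b0', zero_mul, mul_zero, Finset.sum_const_zero, add_zero]
  · refine Fin.cases ?_ (fun i => ?_) i <;> refine Fin.cases ?_ (fun j => ?_) j
    · simp only [b01, b11, b1', zero_mul, mul_zero, Finset.sum_const_zero, add_zero,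
        Matrix.diagonal_apply_eq, Fin.cons_succ, Fin.cons_zero]
      linear_combination w0 * w1 * h
    · rw [Matrix.diagonal_apply_ne _ fun h => Fin.succ_ne_zero j (Fin.succ_injective _ h).symm]
      simp only [b0, b1, b1', zero_mul, mul_zero, Finset.sum_const_zero, add_zero]
    · rw [Matrix.diagonal_apply_ne _ fun h => Fin.succ_ne_zero i (Fin.succ_injective _ h)]
      simp only [b0, b1, b1', zero_mul, mul_zero, Finset.sum_const_zero, add_zero]
    · simp only [b0, b1, b2, zero_mul, mul_zero, zero_add]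
      rw [Finset.sum_eq_single i]
      · by_cases hij : i = j
        · subst hij
          simp
        · rw [Matrix.one_apply_ne hij, Matrix.diagonal_apply_ne _ (by simpa using hij), mul_zero]
      · intro l _ hl
        rw [Matrix.one_apply_ne hl, zero_mul, zero_mul]
      · intro h
        exact absurd (Finset.mem_univ i) h

/-- Diagonal matrices. -/
theorem diag_diag [Finite k] (h2 : (2 : k) ≠ 0) : ∀ (n : ℕ) (w w' : Fin n → k),
    (∀ i, w i ≠ 0) → (∀ i, w' i ≠ 0) → IsSquare ((∏ i, w i) * ∏ i, w' i) →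
    ∃ a : Matrix (Fin n) (Fin n) k, aᵀ * diagonal w * a = diagonal w'
  | 0, w, w', _, _, _ => ⟨1, by ext i; exact i.elim0⟩
  | 1, w, w', h, h', ⟨z, hz⟩ => by
    refine ⟨Matrix.of fun _ _ => z / w 0, ?_⟩
    simp only [Finset.univ_unique, Fin.default_eq_zero, Fin.isValue, Finset.prod_singleton] at hz
    ext i j
    rw [Subsingleton.elim i 0, Subsingleton.elim j 0]
    rw [Matrix.mul_apply]
    simp only [Finset.univ_unique, Fin.default_eq_zero, Finset.sum_singleton,
      Matrix.mul_diagonal, Matrix.transpose_apply, Matrix.of_apply, Matrix.diagonal_apply_eq]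
    have := h 0
    field_simp
    linear_combination -hz
  | n + 2, w, w', h, h', hs => by
    obtain ⟨x, y, hxy⟩ := rep2 h2 (w' 0) (h 0) (h (Fin.succ 0))
    obtain ⟨b, hb⟩ := two_step x y (w 0) (w (Fin.succ 0)) (w' 0) (fun i => w i.succ.succ) hxy
    have e1 : (Fin.cons (w 0) (Fin.cons (w (Fin.succ 0)) fun i => w i.succ.succ :
        Fin (n + 1) → k) : Fin (n + 2) → k) = w := by
      ext i
      refine Fin.cases rfl (fun i => ?_) i
      refine Fin.cases rfl (fun i => rfl) i
    rw [e1] at hb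
    obtain ⟨u, hu⟩ : ∃ u : Fin (n + 1) → k,
      u = Fin.cons (w 0 * w (Fin.succ 0) * w' 0) fun i => w i.succ.succ := ⟨_, rfl⟩
    have hu0 : ∀ i, u i ≠ 0 := by
      intro i
      rw [hu]
      refine Fin.cases ?_ (fun i => ?_) i
      · exact mul_ne_zero (mul_ne_zero (h _) (h _)) (h' _)
      · exact h _
    obtain ⟨a, ha⟩ := diag_diag h2 (n + 1) u (fun i => w' i.succ) hu0 (fun i => h' _) (by
      obtain ⟨z, hz⟩ := hs
      refine ⟨z, ?_⟩
      rw [Fin.prod_univ_succ, Fin.prod_univ_succ, Fin.prod_univ_succ (f := w')] at hz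
      rw [Fin.prod_univ_succ (f := u), hu]
      simp only [Fin.cons_zero, Fin.cons_succ]
      linear_combination hz)
    obtain ⟨c, hc⟩ := lift_one (w' 0) u (fun i => w' i.succ) a ha
    refine ⟨b * c, ?_⟩
    have e2 : (Fin.cons (w' 0) (fun i => w' i.succ) : Fin (n + 2) → k) = w' :=
      Fin.cons_self_tail w'
    rw [e2] at hc
    rw [Matrix.transpose_mul]
    have e3 : cᵀ * bᵀ * diagonal w * (b * c) = cᵀ * (bᵀ * diagonal w * b) * c := by
      simp only [Matrix.mul_assoc]
    rw [e3, hb, ← hu, hc]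

end Pool.HYP.CX4

namespace Pool.HYP

open Polynomial Matrix CX4

/-- **Congruence of symmetric matrices over a finite field.** -/
theorem cx4 : CX4Stmt := by
  intro k _ _ h2 n G G' hG hG' hd hd' hs
  obtain ⟨a, w, ha, haw, hw⟩ := exists_diag h2 G hG hd
  obtain ⟨a', w', ha', haw', hw'⟩ := exists_diag h2 G' hG' hd'
  have e1 : a.det ^ 2 * G.det = ∏ i, w i := by
    rw [← Matrix.det_diagonal, ← haw, Matrix.det_mul, Matrix.det_mul, Matrix.det_transpose]
    ring
  have e2 : a'.det ^ 2 * G'.det = ∏ i, w' i := by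
    rw [← Matrix.det_diagonal, ← haw', Matrix.det_mul, Matrix.det_mul, Matrix.det_transpose]
    ring
  obtain ⟨b, hb⟩ := diag_diag h2 n w w' hw hw' (by
    obtain ⟨z, hz⟩ := hs
    refine ⟨a.det * a'.det * z, ?_⟩
    rw [← e1, ← e2]
    linear_combination a.det ^ 2 * a'.det ^ 2 * hz)
  have hu : IsUnit a'.det := isUnit_iff_ne_zero.2 ha'
  have e3 : (a * b * a'⁻¹)ᵀ * G * (a * b * a'⁻¹) = G' := by
    have e4 : (a * b * a'⁻¹)ᵀ * G * (a * b * a'⁻¹) =
        (a'⁻¹)ᵀ * (bᵀ * (aᵀ * G * a) * b) * a'⁻¹ := by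
      simp only [Matrix.transpose_mul, Matrix.mul_assoc]
    rw [e4, haw, hb, ← haw']
    have e5 : (a'⁻¹)ᵀ * (a'ᵀ * G' * a') * a'⁻¹ =
        ((a'⁻¹)ᵀ * a'ᵀ) * G' * (a' * a'⁻¹) := by
      simp only [Matrix.mul_assoc]
    rw [e5, Matrix.mul_nonsing_inv _ hu, ← Matrix.transpose_mul, Matrix.mul_nonsing_inv _ hu,
      Matrix.transpose_one, one_mul, mul_one]
  refine ⟨a * b * a'⁻¹, ?_, e3⟩
  intro h0
  apply hd'
  rw [← e3, Matrix.det_mul, h0, mul_zero]

end Pool.HYP
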